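import Pool.Agent.X51.Leaf.Main

/-!
# Graphs with `L(G) ≤ δ'(G) + 1` have a Hamiltonian path
-/

set_option autoImplicit false

namespace Pool.Agent.Results.MP_95a718_co.FewLeaves

open Finset Pool.Agent.X51.Leaf

universe u

variable {V : Type u} [Fintype V]

/-- The number of leaves (vertices of degree `1`) of a graph. -/
noncomputable def leafCount (T : SimpleGraph V) : ℕ := {v : V | (T.neighborSet v).ncard = 1}.ncard

/-- `L(G)`: the largest number of leaves of a spanning tree of `G`. -/
noncomputable def leafNumber (G : SimpleGraph V) : ℕ :=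
  sSup {l : ℕ | ∃ T : SimpleGraph V, T ≤ G ∧ T.IsTree ∧ leafCount T = l}

/-- The list of the degrees of all vertices of `G`, in nondecreasing order. -/
noncomputable def degreeList (G : SimpleGraph V) : List ℕ :=
  ((Finset.univ : Finset V).val.map fun v => (G.neighborSet v).ncard).sort (· ≤ ·)

/-- `δ'(G)`: the second smallest degree, counted with multiplicity (the entry with index `1` of the
nondecreasing list of degrees, whose entries are indexed from `0`). -/
noncomputable def secondMinDegree (G : SimpleGraph V) : ℕ := (degreeList G).getD 1 0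

lemma second (G : SimpleGraph V) (u v : V) (hu : dg G u < secondMinDegree G)
    (hv : dg G v < secondMinDegree G) : u = v := by
  classical
  by_contra huv
  set k := secondMinDegree G with hk
  set s : Multiset ℕ := (Finset.univ : Finset V).val.map fun v => (G.neighborSet v).ncard with hs
  have h1 : 2 ≤ s.countP (· < k) := by
    rw [hs, Multiset.countP_map]
    have h2 : ({u, v} : Finset V).card ≤
        ((Finset.univ : Finset V).filter fun v => (G.neighborSet v).ncard < k).card := by
      refine Finset.card_le_card ?_
      intro w hw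
      rw [Finset.mem_filter]
      refine ⟨Finset.mem_univ _, ?_⟩
      rcases Finset.mem_insert.mp hw with rfl | hw
      · exact hu
      · rw [Finset.mem_singleton] at hw
        rw [hw]
        exact hv
    rw [Finset.card_pair huv] at h2
    exact h2
  have h3 : ((degreeList G : List ℕ) : Multiset ℕ) = s := Multiset.sort_eq _ _
  have hp : (degreeList G).Pairwise (· ≤ ·) := Multiset.pairwise_sort _ _
  rw [← h3, Multiset.coe_countP] at h1
  have hk' : k = (degreeList G).getD 1 0 := rfl
  rcases hl : degreeList G with _ | ⟨a, _ | ⟨b, t⟩⟩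
  · rw [hl] at h1
    simp at h1
  · rw [hl] at h1
    have := List.countP_le_length (p := fun x => decide (x < k)) (l := [a])
    simp only [List.length_singleton] at this
    omega
  · rw [hl] at h1 hp hk'
    have hkb : k = b := by simpa using hk'
    rw [List.countP_cons] at h1
    have h4 : List.countP (fun x => decide (x < k)) (b :: t) = 0 := by
      rw [List.countP_eq_zero]
      intro x hx
      rw [List.pairwise_cons, List.pairwise_cons] at hp
      rcases List.mem_cons.mp hx with rfl | hx
      · simp [hkb]
      · have := hp.2.1 x hx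
        simp only [decide_eq_true_eq]
        omega
    rw [h4] at h1
    split_ifs at h1 <;> omega

lemma walkOf {G : SimpleGraph V} {p : ℕ → V} {m : ℕ} (h : IsP G p m) : ∀ i, i < m →
    ∃ w : G.Walk (p 0) (p i), w.support = (List.range (i + 1)).map p := by
  intro i
  induction i with
  | zero =>
    intro _
    exact ⟨SimpleGraph.Walk.nil, by simp⟩
  | succ i ih =>
    intro hi
    obtain ⟨w, hw⟩ := ih (by omega)
    refine ⟨w.concat (h.2 i hi), ?_⟩
    rw [SimpleGraph.Walk.support_concat, hw, List.range_succ (n := i + 1), List.map_append]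
    simp

/-- Every connected graph with at least two vertices and `L(G) ≤ δ'(G) + 1` has a Hamiltonian
path. -/
theorem result : ∀ (V : Type u) [Fintype V] [DecidableEq V] (G : SimpleGraph V), G.Connected →
    2 ≤ Fintype.card V → leafNumber G ≤ secondMinDegree G + 1 →
    ∃ (a b : V) (p : G.Walk a b), p.IsHamiltonian := by
  intro V _ _ G hG hV hL
  classical
  have hbd : BddAbove {l : ℕ | ∃ T : SimpleGraph V, T ≤ G ∧ T.IsTree ∧ leafCount T = l} := by
    refine ⟨Fintype.card V, ?_⟩
    rintro _ ⟨T, -, -, rfl⟩
    unfold leafCount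
    rw [← Nat.card_eq_fintype_card, ← Set.ncard_univ]
    exact Set.ncard_le_ncard (Set.subset_univ _) (Set.toFinite _)
  have hLB : LB G (secondMinDegree G) := by
    intro D N b hb hD hDN hN
    obtain ⟨T, h1, h2, h3⟩ := grow hG b _ D N rfl hb hD hDN hN
    exact (h3.trans (le_csSup hbd ⟨T, h1, h2, rfl⟩)).trans hL
  have hbound : ∀ m p, IsP G p m → m ≤ Fintype.card V := by
    intro m p h
    have := Fintype.card_le_of_injective (fun i : Fin m => p i) (fun i j hij => by
      exact Fin.ext (h.1 i j i.2 j.2 hij))
    simpa using this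
  have hP1 : ∃ p, IsP G p 1 := by
    obtain ⟨v⟩ := hG.nonempty
    exact ⟨fun _ => v, fun i j hi hj _ => by omega, fun i hi => by omega⟩
  set m := Nat.findGreatest (fun m => ∃ p, IsP G p m) (Fintype.card V) with hm
  have hm1 : 1 ≤ m := Nat.le_findGreatest (by omega) hP1
  obtain ⟨p, hp⟩ : ∃ p, IsP G p m := Nat.findGreatest_spec (P := fun m => ∃ p, IsP G p m)
    (m := 1) (by omega) hP1
  have hmx : Mx G p m := by
    refine ⟨hp, fun q hq => ?_⟩
    have h1 := Nat.le_findGreatest (P := fun m => ∃ p, IsP G p m) (hbound _ _ hq) ⟨q, hq⟩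
    omega
  have hspan := spanning hmx hm1 hG hLB (second G)
  obtain ⟨w, hw⟩ := walkOf hp (m - 1) (by omega)
  have hm' : m - 1 + 1 = m := by omega
  rw [hm'] at hw
  refine ⟨_, _, w, SimpleGraph.Walk.IsPath.isHamiltonian_of_mem ?_ ?_⟩
  · rw [SimpleGraph.Walk.isPath_def, hw]
    refine List.Nodup.map_on ?_ List.nodup_range
    intro x hx y hy hxy
    exact hp.1 x y (List.mem_range.mp hx) (List.mem_range.mp hy) hxy
  · intro v
    obtain ⟨i, hi, rfl⟩ := hspan v
    rw [hw]
    exact List.mem_map.mpr ⟨i, List.mem_range.mpr hi, rfl⟩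

end Pool.Agent.Results.MP_95a718_co.FewLeaves
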